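import Pool.Agent.J4H34.DN.Stm

/-!
# Project DN of helper34, job F: the inequality for polynomials
-/

set_option autoImplicit false

namespace Pool.Agent.J4H72.DN

open Polynomial Complex
open Pool.Agent.J4H34.DN

/-- Gauss-Lucas for a convex set -/
lemma gl_step (T : Set ℂ) (hT : Convex ℝ T) (p : ℂ[X]) (hp : ∀ w ∈ p.roots, w ∈ T) :
    ∀ w ∈ (derivative p).roots, w ∈ T := by
  intro w hw
  have h0 : derivative p ≠ 0 := (Polynomial.mem_roots'.1 hw).1
  have hd : 0 < p.degree := by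
    by_contra h
    apply h0
    rw [Polynomial.eq_C_of_degree_le_zero (not_lt.1 h), derivative_C]
  have hp0 : p ≠ 0 := by
    intro h
    rw [h] at hd
    simp at hd
  have h1 : w ∈ (derivative p).rootSet ℂ := by
    rw [mem_rootSet]
    refine ⟨h0, ?_⟩
    rw [coe_aeval_eq_eval]
    exact (Polynomial.mem_roots'.1 hw).2
  have h2 := rootSet_derivative_subset_convexHull_rootSet hd h1
  refine convexHull_min ?_ hT h2
  intro v hv
  rw [mem_rootSet, coe_aeval_eq_eval] at hv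
  exact hp v (Polynomial.mem_roots'.2 hv)

lemma gl_iter (T : Set ℂ) (hT : Convex ℝ T) (p : ℂ[X]) (hp : ∀ w ∈ p.roots, w ∈ T) (n : ℕ) :
    ∀ w ∈ (derivative^[n] p).roots, w ∈ T := by
  induction n with
  | zero => exact hp
  | succ n ih =>
    rw [Function.iterate_succ_apply']
    exact gl_step T hT _ ih

lemma strip_convex : Convex ℝ {w : ℂ | |w.im| ≤ 1} := by
  have h : {w : ℂ | |w.im| ≤ 1} = {w : ℂ | w.im ≤ 1} ∩ {w : ℂ | (-1 : ℝ) ≤ w.im} := by
    ext w
    simp only [Set.mem_ofPred_eq, Set.mem_inter_iff, abs_le]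
    exact And.comm
  rw [h]
  exact (convex_halfSpace_im_le 1).inter (convex_halfSpace_im_ge (-1))

theorem t_F : S_A → S_D → S_E → S_F := by
  intro hA hD hE p y η R Λ x₀ n hp hroots hy hη hyη hR hΛ hsum hn
  have hRpos : 0 < R := by linarith
  set z₀ : ℂ := ⟨x₀, R + 1⟩ with hz₀
  obtain ⟨hne, hD'⟩ := hD p y R Λ x₀ n hp hroots hy (by linarith) hR hΛ hsum hn
  have hA' := hA p y n z₀ (by change y ≤ R + 1; linarith)
  set P := derivative^[n] p with hP
  have hP0 : P ≠ 0 := by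
    intro h
    apply hne
    rw [h, eval_zero]
  have hE' := hE P y η R x₀ hP0 (gl_iter _ strip_convex p hroots n) hy hη hyη hR
  set k := (P.roots.filter (fun w => |w.re - x₀| ≤ R ∧ y + η ≤ w.im)).card with hk
  set S := (p.roots.map (fun w => max (w.im - y) 0 * (R + 1 - y) / ‖(⟨x₀, R + 1⟩ : ℂ) - w‖ ^ 2)).sum with hS
  have h1 : Real.exp (η / (10 * R) * k) * ‖P.eval z₀‖ ≤ Real.exp (5 * S) * ‖P.eval z₀‖ :=
    hE'.trans (hA'.trans hD')
  have h2 : Real.exp (η / (10 * R) * k) ≤ Real.exp (5 * S) :=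
    le_of_mul_le_mul_right h1 (norm_pos_iff.2 hne)
  have h3 : η / (10 * R) * k ≤ 5 * S := Real.exp_le_exp.1 h2
  have h4 : S ≤ 3 * (p.roots.map (fun w => max (w.im - y) 0 * R / (R ^ 2 + (x₀ - w.re) ^ 2))).sum := by
    rw [hS, ← Multiset.sum_map_mul_left]
    apply Multiset.sum_map_le_sum_map
    intro w hw
    have hw1 := abs_le.1 (hroots w hw)
    have h5 : ‖(⟨x₀, R + 1⟩ : ℂ) - w‖ ^ 2 = (x₀ - w.re) ^ 2 + (R + 1 - w.im) ^ 2 := by
      rw [← Complex.normSq_eq_norm_sq, Complex.normSq_apply]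
      simp only [Complex.sub_re, Complex.sub_im]
      ring
    rw [h5, ← mul_div_assoc, div_le_div_iff₀ (by nlinarith [sq_nonneg (x₀ - w.re)])
      (by nlinarith [sq_nonneg (x₀ - w.re)])]
    have h6 : (0 : ℝ) ≤ max (w.im - y) 0 := le_max_right _ _
    have h7 : R ^ 2 + (x₀ - w.re) ^ 2 ≤ (x₀ - w.re) ^ 2 + (R + 1 - w.im) ^ 2 := by nlinarith
    have h8 : R + 1 - y ≤ 3 * R := by linarith
    calc max (w.im - y) 0 * (R + 1 - y) * (R ^ 2 + (x₀ - w.re) ^ 2)
        ≤ max (w.im - y) 0 * (3 * R) * ((x₀ - w.re) ^ 2 + (R + 1 - w.im) ^ 2) := by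
          gcongr
      _ = 3 * (max (w.im - y) 0 * R) * ((x₀ - w.re) ^ 2 + (R + 1 - w.im) ^ 2) := by ring
  have h5 : η / (10 * R) * k * (10 * R) = k * η := by
    field_simp
  have h6 : (k : ℝ) * η ≤ 5 * S * (10 * R) := by
    rw [← h5]
    gcongr
  nlinarith [h6, h4, mul_le_mul_of_nonneg_left h4 (by positivity : (0 : ℝ) ≤ 50 * R)]

end Pool.Agent.J4H72.DN
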